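/-
helper26. MRW, module ENE: energy of two path measures.
-/
import Pool.Agent.H74.MRW.Def

set_option autoImplicit false

namespace Pool.MRW

open Finset
open scoped Classical

theorem ene_refl (g : ℕ → ℝ) (n : ℕ) :
    ∑ s ∈ Ioo 0 n, g (n - s) = ∑ s ∈ Ioo 0 n, g s := by
  refine Finset.sum_bij' (fun s _ => n - s) (fun s _ => n - s) ?_ ?_ ?_ ?_ ?_
  · intro s hs
    rw [Finset.mem_Ioo] at hs ⊢
    omega
  · intro s hs
    rw [Finset.mem_Ioo] at hs ⊢
    omega
  · intro s hs
    rw [Finset.mem_Ioo] at hs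
    show n - (n - s) = s
    omega
  · intro s hs
    rw [Finset.mem_Ioo] at hs
    show n - (n - s) = s
    omega
  · intro s _
    rfl

theorem ene_min (g : ℕ → ℝ) (hg : ∀ r, 0 ≤ g r) (n N : ℕ) (hn : n ≤ N) :
    ∑ s ∈ Ioo 0 n, g (min s (n - s)) ≤ 2 * ∑ r ∈ range N, g r := by
  have h1 : ∑ s ∈ Ioo 0 n, g (min s (n - s)) ≤ ∑ s ∈ Ioo 0 n, (g s + g (n - s)) := by
    refine Finset.sum_le_sum fun s _ => ?_
    rcases le_total s (n - s) with h | h
    · rw [min_eq_left h]
      linarith [hg (n - s)]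
    · rw [min_eq_right h]
      linarith [hg s]
  rw [Finset.sum_add_distrib, ene_refl] at h1
  have h2 : ∑ s ∈ Ioo 0 n, g s ≤ ∑ r ∈ range N, g r := by
    refine Finset.sum_le_sum_of_subset_of_nonneg ?_ fun r _ _ => hg r
    intro s hs
    rw [Finset.mem_Ioo] at hs
    rw [Finset.mem_range]
    omega
  linarith

theorem ene_card (n m : ℕ) :
    (((Ioo 0 n).filter (fun s => min s (n - s) ≤ m)).card : ℝ) ≤ 2 * m := by
  have h1 : (Ioo 0 n).filter (fun s => min s (n - s) ≤ m) ⊆
      (Ioc 0 m) ∪ (Ioc 0 m).image (fun s => n - s) := by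
    intro s hs
    rw [Finset.mem_filter, Finset.mem_Ioo] at hs
    rw [Finset.mem_union, Finset.mem_image]
    obtain ⟨⟨h0, hn⟩, hm⟩ := hs
    rcases le_total s (n - s) with h | h
    · left
      rw [min_eq_left h] at hm
      rw [Finset.mem_Ioc]
      exact ⟨h0, hm⟩
    · right
      rw [min_eq_right h] at hm
      refine ⟨n - s, ?_, by omega⟩
      rw [Finset.mem_Ioc]
      omega
  have h2 := Finset.card_le_card h1
  have h3 := Finset.card_union_le (Ioc 0 m) ((Ioc 0 m).image (fun s => n - s))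
  have h4 : ((Ioc 0 m).image (fun s => n - s)).card ≤ (Ioc 0 m).card := Finset.card_image_le
  have h5 : (Ioc 0 m).card = m := by simp
  have h6 : ((Ioo 0 n).filter (fun s => min s (n - s) ≤ m)).card ≤ 2 * m := by omega
  exact_mod_cast h6

theorem ene_half (n n' N : ℕ) (b : ℕ → ℝ) (hb : ∀ r, 0 ≤ b r) (hn : n ≤ N) :
    ∑ s ∈ Ioo 0 n, ∑ s' ∈ Ioo 0 n',
      (if min s' (n' - s') ≤ min s (n - s) then b (min s (n - s)) else 0)
      ≤ 4 * ∑ r ∈ range N, (r : ℝ) * b r := by
  have h1 : ∀ s ∈ Ioo 0 n, ∑ s' ∈ Ioo 0 n',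
      (if min s' (n' - s') ≤ min s (n - s) then b (min s (n - s)) else 0)
      ≤ 2 * (fun r : ℕ => (r : ℝ) * b r) (min s (n - s)) := by
    intro s _
    rw [← Finset.sum_filter, Finset.sum_const, nsmul_eq_mul]
    have := mul_le_mul_of_nonneg_right (ene_card n' (min s (n - s))) (hb (min s (n - s)))
    calc _ ≤ _ := this
      _ = _ := by ring
  refine (Finset.sum_le_sum h1).trans ?_
  rw [← Finset.mul_sum]
  have h2 := ene_min (fun r : ℕ => (r : ℝ) * b r)
    (fun r => mul_nonneg (Nat.cast_nonneg r) (hb r)) n N hn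
  linarith

theorem t_ene : ENEStmt := by
  intro V _ N n n' b h h' hb hh hh' hs hs' hn hn' hN hN'
  constructor
  · have e1 : ∀ w, (∑ s ∈ Ioo 0 n, h s w) * (∑ s ∈ Ioo 0 n', h' s w)
        = ∑ s ∈ Ioo 0 n, ∑ s' ∈ Ioo 0 n', h s w * h' s' w := by
      intro w
      rw [Finset.sum_mul_sum]
    simp only [e1]
    rw [Finset.sum_comm]
    have e2 : ∀ s ∈ Ioo 0 n, ∑ w, ∑ s' ∈ Ioo 0 n', h s w * h' s' w
        ≤ ∑ s' ∈ Ioo 0 n',
          ((if min s' (n' - s') ≤ min s (n - s) then b (min s (n - s)) else 0) +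
            (if min s (n - s) ≤ min s' (n' - s') then b (min s' (n' - s')) else 0)) := by
      intro s hss
      rw [Finset.sum_comm]
      rw [Finset.mem_Ioo] at hss
      refine Finset.sum_le_sum fun s' hss' => ?_
      rw [Finset.mem_Ioo] at hss'
      have a1 : ∑ w, h s w * h' s' w ≤ b (min s (n - s)) := by
        calc ∑ w, h s w * h' s' w ≤ ∑ w, b (min s (n - s)) * h' s' w := by
              refine Finset.sum_le_sum fun w _ => ?_
              exact mul_le_mul_of_nonneg_right (hn s w hss.1 hss.2) (hh' s' w)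
          _ = b (min s (n - s)) * ∑ w, h' s' w := by rw [Finset.mul_sum]
          _ ≤ b (min s (n - s)) * 1 :=
              mul_le_mul_of_nonneg_left (hs' s') (hb _)
          _ = b (min s (n - s)) := mul_one _
      have a2 : ∑ w, h s w * h' s' w ≤ b (min s' (n' - s')) := by
        calc ∑ w, h s w * h' s' w ≤ ∑ w, h s w * b (min s' (n' - s')) := by
              refine Finset.sum_le_sum fun w _ => ?_
              exact mul_le_mul_of_nonneg_left (hn' s' w hss'.1 hss'.2) (hh s w)
          _ = (∑ w, h s w) * b (min s' (n' - s')) := by rw [Finset.sum_mul]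
          _ ≤ 1 * b (min s' (n' - s')) :=
              mul_le_mul_of_nonneg_right (hs s) (hb _)
          _ = b (min s' (n' - s')) := one_mul _
      rcases le_total (min s' (n' - s')) (min s (n - s)) with h0 | h0
      · rw [if_pos h0]
        split_ifs
        · linarith [hb (min s' (n' - s'))]
        · linarith
      · rw [if_pos h0]
        split_ifs
        · linarith [hb (min s (n - s))]
        · linarith
    refine (Finset.sum_le_sum e2).trans ?_
    simp only [Finset.sum_add_distrib]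
    have b1 := ene_half n n' N b hb hN
    have b2 := ene_half n' n N b hb hN'
    rw [Finset.sum_comm] at b2
    linarith
  · intro w
    have h1 : ∑ s ∈ Ioo 0 n, h s w ≤
        ∑ s ∈ Ioo 0 n, (fun r : ℕ => (r : ℝ) * b r) (min s (n - s)) := by
      refine Finset.sum_le_sum fun s hss => ?_
      rw [Finset.mem_Ioo] at hss
      refine (hn s w hss.1 hss.2).trans ?_
      have h2 : (1 : ℝ) ≤ ((min s (n - s) : ℕ) : ℝ) := by
        have : 1 ≤ min s (n - s) := by
          rw [le_min_iff]
          omega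
        exact_mod_cast this
      have := mul_le_mul_of_nonneg_right h2 (hb (min s (n - s)))
      show b (min s (n - s)) ≤ ((min s (n - s) : ℕ) : ℝ) * b (min s (n - s))
      linarith
    exact h1.trans (ene_min _ (fun r => mul_nonneg (Nat.cast_nonneg r) (hb r)) n N hN)

end Pool.MRW
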