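/-
helper26. MRW, module LIN: linearity and monotonicity of the functional `W`.
-/
import Pool.Agent.H74.MRW.Def

set_option autoImplicit false

namespace Pool.MRW

open Finset
open scoped Classical

theorem W_zero {V : Type} [Fintype V] (P : V → V → ℝ) (x y : V) (F : (ℕ → V) → ℝ) :
    W P 0 x y F = if x = y then F (fun _ => x) else 0 := rfl

theorem W_succ {V : Type} [Fintype V] (P : V → V → ℝ) (n : ℕ) (x y : V) (F : (ℕ → V) → ℝ) :
    W P (n + 1) x y F = ∑ a, P x a * W P n a y (fun p => F (cns x p)) := rfl

theorem W_add {V : Type} [Fintype V] (P : V → V → ℝ) (n : ℕ) : ∀ (x y : V)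
    (F F' : (ℕ → V) → ℝ), W P n x y (fun p => F p + F' p) = W P n x y F + W P n x y F' := by
  induction n with
  | zero =>
      intro x y F F'
      simp only [W_zero]
      split_ifs
      · rfl
      · simp
  | succ n ih =>
      intro x y F F'
      simp only [W_succ]
      rw [← Finset.sum_add_distrib]
      refine Finset.sum_congr rfl fun a _ => ?_
      rw [ih a y (fun p => F (cns x p)) (fun p => F' (cns x p)), mul_add]

theorem W_smul {V : Type} [Fintype V] (P : V → V → ℝ) (n : ℕ) : ∀ (x y : V)
    (c : ℝ) (F : (ℕ → V) → ℝ), W P n x y (fun p => c * F p) = c * W P n x y F := by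
  induction n with
  | zero =>
      intro x y c F
      simp only [W_zero]
      split_ifs
      · rfl
      · simp
  | succ n ih =>
      intro x y c F
      simp only [W_succ]
      rw [Finset.mul_sum]
      refine Finset.sum_congr rfl fun a _ => ?_
      rw [ih a y c (fun p => F (cns x p))]
      ring

theorem W_nul {V : Type} [Fintype V] (P : V → V → ℝ) (n : ℕ) (x y : V) :
    W P n x y (fun _ => 0) = 0 := by
  have h := W_smul P n x y 0 (fun _ => 0)
  simpa using h

theorem W_sum {V : Type} [Fintype V] (P : V → V → ℝ) (n : ℕ) (x y : V)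
    (ι : Type) (S : Finset ι) (F : ι → (ℕ → V) → ℝ) :
    W P n x y (fun p => ∑ i ∈ S, F i p) = ∑ i ∈ S, W P n x y (F i) := by
  induction S using Finset.induction_on with
  | empty => simpa using W_nul P n x y
  | insert i S hi ih =>
      rw [Finset.sum_insert hi, ← ih, ← W_add]
      congr 1
      funext p
      rw [Finset.sum_insert hi]

theorem W_mono {V : Type} [Fintype V] (P : V → V → ℝ) (hP : ∀ u w, 0 ≤ P u w) (n : ℕ) :
    ∀ (x y : V) (F F' : (ℕ → V) → ℝ),
      (∀ p, p 0 = x → p n = y → F p ≤ F' p) → W P n x y F ≤ W P n x y F' := by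
  induction n with
  | zero =>
      intro x y F F' h
      simp only [W_zero]
      split_ifs with hxy
      · exact h _ rfl hxy
      · exact le_refl _
  | succ n ih =>
      intro x y F F' h
      simp only [W_succ]
      refine Finset.sum_le_sum fun a _ => ?_
      refine mul_le_mul_of_nonneg_left ?_ (hP x a)
      refine ih a y _ _ fun p _ hpn => ?_
      exact h (cns x p) rfl hpn

theorem W_congr {V : Type} [Fintype V] (P : V → V → ℝ) (n : ℕ) :
    ∀ (x y : V) (F F' : (ℕ → V) → ℝ),
      (∀ p, p 0 = x → p n = y → F p = F' p) → W P n x y F = W P n x y F' := by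
  induction n with
  | zero =>
      intro x y F F' h
      simp only [W_zero]
      split_ifs with hxy
      · exact h _ rfl hxy
      · rfl
  | succ n ih =>
      intro x y F F' h
      simp only [W_succ]
      refine Finset.sum_congr rfl fun a _ => ?_
      congr 1
      refine ih a y _ _ fun p _ hpn => ?_
      exact h (cns x p) rfl hpn

theorem t_lin : LINStmt := by
  intro V _ P n x y
  exact ⟨W_add P n x y, W_smul P n x y, W_sum P n x y,
    fun hP => W_mono P hP n x y, W_congr P n x y⟩

end Pool.MRW
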