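/-
helper26. MRW, module REC: records.
-/
import Pool.Agent.H74.MRW.Def

set_option autoImplicit false

namespace Pool.MRW

open Finset
open scoped Classical

theorem t_rec : RECStmt := by
  intro f D c R w hf hD hr
  by_contra hcon
  push Not at hcon
  have hD0 : 0 < D := by linarith
  have key : ∀ i, i ≤ c → ∃ s, w + (c + 2 - i) * R ≤ s ∧ s ≤ w + (c + 2) * R ∧
      D ^ i * f (w + (c + 2) * R) ≤ f s := by
    intro i
    induction i with
    | zero =>
        intro _
        refine ⟨w + (c + 2) * R, ?_, le_refl _, ?_⟩
        · simp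
        · simp
    | succ i ih =>
        intro hi
        obtain ⟨s, hs1, hs2, hs3⟩ := ih (by omega)
        obtain ⟨k, hk⟩ : ∃ k, k = c + 2 - (i + 1) := ⟨_, rfl⟩
        have hk1 : c + 2 - i = k + 1 := by omega
        have hk2 : 1 ≤ k := by omega
        have hkR : R ≤ k * R := Nat.le_mul_of_pos_left R hk2
        rw [hk1] at hs1
        have e : (k + 1) * R = k * R + R := by ring
        rw [e] at hs1
        obtain ⟨s', h1, h2, h3⟩ := hcon s (by omega) hs2
        refine ⟨s', ?_, ?_, ?_⟩
        · rw [← hk]
          omega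
        · omega
        · rw [pow_succ]
          have : D * (D ^ i * f (w + (c + 2) * R)) ≤ D * f s :=
            mul_le_mul_of_nonneg_left hs3 hD0.le
          nlinarith
  obtain ⟨s, hs1, hs2, hs3⟩ := key c (le_refl _)
  have e : (c + 2 - c) * R = R + R := by
    have : c + 2 - c = 2 := by omega
    rw [this]; ring
  rw [e] at hs1
  obtain ⟨s', h1, h2, h3⟩ := hcon s (by omega) hs2
  have h4 := hr s' (w + (c + 2) * R)
  have h5 : f s ≤ D * f s := by
    have := mul_le_mul_of_nonneg_right hD (hf s).le
    linarith
  linarith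

end Pool.MRW
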