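/-
helper26. MRW, module SCA: the sum over the scales.
-/
import Pool.Agent.H74.MRW.Def

set_option autoImplicit false

namespace Pool.MRW

open Finset
open scoped Classical

theorem t_sca : SCAStmt := by
  intro M c q J κ m₀ hM hq hm hκ hmono h1 hdec
  have hM0 : (0 : ℝ) < M := by
    have : 0 < M := by omega
    exact_mod_cast this
  have hM2 : (2 : ℝ) ≤ M := by exact_mod_cast hM
  have hM1 : (1 : ℝ) ≤ M := by linarith
  have hq1 : (1 : ℝ) ≤ q := by exact_mod_cast hq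
  have hq0 : (0 : ℝ) < q := by linarith
  have key : ∀ l, l ≤ J → ((M : ℝ) ^ (c + 4)) ^ l * κ (M ^ l) ≤ κ 1 := by
    intro l
    induction l with
    | zero => intro _; simp
    | succ l ih =>
        intro hl
        have a1 := ih (by omega)
        have a2 := hdec l (by omega)
        have a3 : (0 : ℝ) ≤ ((M : ℝ) ^ (c + 4)) ^ l := by positivity
        have a4 := mul_le_mul_of_nonneg_left a2 a3
        calc ((M : ℝ) ^ (c + 4)) ^ (l + 1) * κ (M ^ (l + 1))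
            = ((M : ℝ) ^ (c + 4)) ^ l * ((M : ℝ) ^ (c + 4) * κ (M ^ (l + 1))) := by
              rw [pow_succ]; ring
          _ ≤ ((M : ℝ) ^ (c + 4)) ^ l * κ (M ^ l) := a4
          _ ≤ κ 1 := a1
  have term : ∀ r ∈ (range (M ^ (J + 1))).filter (fun r => q / M < r),
      (r : ℝ) * (κ r * m₀) ≤ (M : ℝ) ^ (2 * c + 4) / (q : ℝ) ^ 12 * ((r : ℝ) ^ 2)⁻¹ := by
    intro r hr
    rw [Finset.mem_filter, Finset.mem_range] at hr
    obtain ⟨hrJ, hrq⟩ := hr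
    have hr0 : 0 < r := lt_of_le_of_lt (Nat.zero_le _) hrq
    have hrr : (0 : ℝ) < r := by exact_mod_cast hr0
    have hr1 : (1 : ℝ) ≤ r := by exact_mod_cast hr0
    have hqr : q < r * M := (Nat.div_lt_iff_lt_mul (by omega)).mp hrq
    have hqr' : (q : ℝ) ≤ r * M := by exact_mod_cast hqr.le
    obtain ⟨l, hl⟩ : ∃ l, l = Nat.log M r := ⟨_, rfl⟩
    have b1 : M ^ l ≤ r := by
      rw [hl]
      exact Nat.pow_log_le_self M (by omega)
    have b2 : r < M ^ (l + 1) := by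
      rw [hl]
      exact Nat.lt_pow_succ_log_self (by omega) r
    have b3 : l ≤ J := by
      have : M ^ l < M ^ (J + 1) := lt_of_le_of_lt b1 hrJ
      have := (Nat.pow_lt_pow_iff_right (by omega : 1 < M)).mp this
      omega
    have b4 : (r : ℝ) ≤ (M : ℝ) ^ (l + 1) := by exact_mod_cast b2.le
    have b5 : (r : ℝ) ^ (c + 4) ≤ (M : ℝ) ^ (c + 4) * ((M : ℝ) ^ (c + 4)) ^ l := by
      calc (r : ℝ) ^ (c + 4) ≤ ((M : ℝ) ^ (l + 1)) ^ (c + 4) :=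
            pow_le_pow_left₀ hrr.le b4 _
        _ = (M : ℝ) ^ (c + 4) * ((M : ℝ) ^ (c + 4)) ^ l := by
            rw [← pow_mul, ← pow_mul, ← pow_add]
            congr 1
            ring
    have b6 : κ r ≤ κ (M ^ l) := hmono _ _ b1
    have b7 : (r : ℝ) ^ (c + 4) * κ r ≤ (M : ℝ) ^ (c + 4) * κ 1 := by
      have p0 : (0 : ℝ) ≤ (M : ℝ) ^ (c + 4) * ((M : ℝ) ^ (c + 4)) ^ l := by positivity
      have p1 : (0 : ℝ) ≤ (M : ℝ) ^ (c + 4) := by positivity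
      calc (r : ℝ) ^ (c + 4) * κ r
          ≤ ((M : ℝ) ^ (c + 4) * ((M : ℝ) ^ (c + 4)) ^ l) * κ r :=
            mul_le_mul_of_nonneg_right b5 (hκ r)
        _ ≤ ((M : ℝ) ^ (c + 4) * ((M : ℝ) ^ (c + 4)) ^ l) * κ (M ^ l) :=
            mul_le_mul_of_nonneg_left b6 p0
        _ = (M : ℝ) ^ (c + 4) * (((M : ℝ) ^ (c + 4)) ^ l * κ (M ^ l)) := by ring
        _ ≤ (M : ℝ) ^ (c + 4) * κ 1 := mul_le_mul_of_nonneg_left (key l b3) p1
    have b8 : (q : ℝ) ^ c ≤ (r : ℝ) ^ c * (M : ℝ) ^ c := by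
      rw [← mul_pow]
      exact pow_le_pow_left₀ hq0.le hqr' _
    have b9 : (r : ℝ) ^ (c + 4) * κ r * m₀ ≤
        (M : ℝ) ^ (2 * c + 4) * (r : ℝ) ^ c / (q : ℝ) ^ 12 := by
      have p1 : (0 : ℝ) ≤ (M : ℝ) ^ (c + 4) := by positivity
      have p2 : (q : ℝ) ^ c / (q : ℝ) ^ 16 ≤ (r : ℝ) ^ c * (M : ℝ) ^ c / (q : ℝ) ^ 12 := by
        have p3 : (q : ℝ) ^ 12 ≤ (q : ℝ) ^ 16 := pow_le_pow_right₀ hq1 (by norm_num)
        have p4 : (0 : ℝ) < (q : ℝ) ^ 12 := by positivity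
        have p5 : (0 : ℝ) ≤ (r : ℝ) ^ c * (M : ℝ) ^ c := by positivity
        exact div_le_div₀ p5 b8 p4 p3
      calc (r : ℝ) ^ (c + 4) * κ r * m₀ ≤ (M : ℝ) ^ (c + 4) * κ 1 * m₀ :=
            mul_le_mul_of_nonneg_right b7 hm
        _ = (M : ℝ) ^ (c + 4) * (κ 1 * m₀) := by ring
        _ ≤ (M : ℝ) ^ (c + 4) * ((q : ℝ) ^ c / (q : ℝ) ^ 16) :=
            mul_le_mul_of_nonneg_left h1 p1
        _ ≤ (M : ℝ) ^ (c + 4) * ((r : ℝ) ^ c * (M : ℝ) ^ c / (q : ℝ) ^ 12) :=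
            mul_le_mul_of_nonneg_left p2 p1
        _ = (M : ℝ) ^ (2 * c + 4) * (r : ℝ) ^ c / (q : ℝ) ^ 12 := by
            have : (M : ℝ) ^ (2 * c + 4) = (M : ℝ) ^ (c + 4) * (M : ℝ) ^ c := by
              rw [← pow_add]; congr 1; ring
            rw [this]; ring
    have hrc : (0 : ℝ) < (r : ℝ) ^ (c + 3) := by positivity
    have c1 : (r : ℝ) * (κ r * m₀) * (r : ℝ) ^ (c + 3) = (r : ℝ) ^ (c + 4) * κ r * m₀ := by
      have : (r : ℝ) ^ (c + 4) = (r : ℝ) ^ (c + 3) * r := pow_succ _ _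
      rw [this]; ring
    have c2 : (M : ℝ) ^ (2 * c + 4) / (q : ℝ) ^ 12 * ((r : ℝ) ^ 2)⁻¹ * (r : ℝ) ^ (c + 3)
        = (M : ℝ) ^ (2 * c + 4) * (r : ℝ) ^ c / (q : ℝ) ^ 12 * r := by
      have : (r : ℝ) ^ (c + 3) = (r : ℝ) ^ c * r * (r : ℝ) ^ 2 := by ring
      rw [this]
      field_simp
    have c3 : (0 : ℝ) ≤ (M : ℝ) ^ (2 * c + 4) * (r : ℝ) ^ c / (q : ℝ) ^ 12 := by positivity
    have c4 : (M : ℝ) ^ (2 * c + 4) * (r : ℝ) ^ c / (q : ℝ) ^ 12 ≤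
        (M : ℝ) ^ (2 * c + 4) * (r : ℝ) ^ c / (q : ℝ) ^ 12 * r :=
      le_mul_of_one_le_right c3 hr1
    refine le_of_mul_le_mul_right ?_ hrc
    rw [c1, c2]
    exact b9.trans c4
  refine (Finset.sum_le_sum term).trans ?_
  rw [← Finset.mul_sum]
  have s1 : ∑ r ∈ (range (M ^ (J + 1))).filter (fun r => q / M < r), ((r : ℝ) ^ 2)⁻¹ ≤ 2 := by
    have s2 : ∑ r ∈ (range (M ^ (J + 1))).filter (fun r => q / M < r), ((r : ℝ) ^ 2)⁻¹
        ≤ ∑ r ∈ Ioo 0 (M ^ (J + 1)), ((r : ℝ) ^ 2)⁻¹ := by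
      refine Finset.sum_le_sum_of_subset_of_nonneg ?_ fun r _ _ => by positivity
      intro r hr
      rw [Finset.mem_filter, Finset.mem_range] at hr
      rw [Finset.mem_Ioo]
      exact ⟨lt_of_le_of_lt (Nat.zero_le _) hr.2, hr.1⟩
    have s3 := sum_Ioo_inv_sq_le (α := ℝ) 0 (M ^ (J + 1))
    have s4 : (2 : ℝ) / (((0 : ℕ) : ℝ) + 1) = 2 := by norm_num
    rw [s4] at s3
    exact s2.trans s3
  have p6 : (0 : ℝ) ≤ (M : ℝ) ^ (2 * c + 4) / (q : ℝ) ^ 12 := by positivity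
  refine (mul_le_mul_of_nonneg_left s1 p6).trans ?_
  have p7 : (M : ℝ) ^ (2 * c + 4) * 2 ≤ (M : ℝ) ^ (3 * c + 16) := by
    calc (M : ℝ) ^ (2 * c + 4) * 2 ≤ (M : ℝ) ^ (2 * c + 4) * M :=
          mul_le_mul_of_nonneg_left hM2 (by positivity)
      _ = (M : ℝ) ^ (2 * c + 5) := by rw [← pow_succ]
      _ ≤ (M : ℝ) ^ (3 * c + 16) := pow_le_pow_right₀ hM1 (by omega)
  have p8 : (M : ℝ) ^ (2 * c + 4) / (q : ℝ) ^ 12 * 2 =
      (M : ℝ) ^ (2 * c + 4) * 2 / (q : ℝ) ^ 12 := by ring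
  rw [p8]
  exact div_le_div_of_nonneg_right p7 (by positivity)

end Pool.MRW
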