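/-
helper26. MRW, module SPL: the Markov property of the functional `W`.
-/
import Pool.Agent.H26.MRW.LIN

set_option autoImplicit false

namespace Pool.MRW

open Finset
open scoped Classical

theorem cns_succ {V : Type} (x : V) (p : ℕ → V) (n : ℕ) : cns x p (n + 1) = p n := rfl

theorem cns_zero {V : Type} (x : V) (p : ℕ → V) : cns x p 0 = x := rfl

theorem W_split {V : Type} [Fintype V] (P : V → V → ℝ) (n : ℕ) (y : V)
    (F₂ : (ℕ → V) → ℝ) (m : ℕ) : ∀ (x : V) (F₁ : (ℕ → V) → ℝ), Loc m F₁ →
    W P (m + n) x y (fun p => F₁ p * F₂ (fun s => p (m + s))) =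
      ∑ w, W P m x w F₁ * W P n w y F₂ := by
  induction m with
  | zero =>
      intro x F₁ hF
      have h1 : W P (0 + n) x y (fun p => F₁ p * F₂ (fun s => p (0 + s)))
          = W P n x y (fun p => F₁ (fun _ => x) * F₂ p) := by
        rw [Nat.zero_add]
        refine W_congr P n x y _ _ fun p hp _ => ?_
        have h2 : F₁ p = F₁ (fun _ => x) := by
          refine hF _ _ fun s hs => ?_
          have : s = 0 := by omega
          rw [this, hp]
        have h3 : (fun s => p (0 + s)) = p := by
          funext s
          rw [Nat.zero_add]
        rw [h2, h3]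
      rw [h1, W_smul]
      simp only [W_zero]
      rw [Finset.sum_eq_single x]
      · simp
      · intro b _ hb
        rw [if_neg (fun h => hb h.symm), zero_mul]
      · intro h
        exact absurd (Finset.mem_univ x) h
  | succ m ih =>
      intro x F₁ hF
      have e : m + 1 + n = (m + n) + 1 := by omega
      rw [e, W_succ]
      have h1 : ∀ a, W P (m + n) a y
            (fun p => F₁ (cns x p) * F₂ (fun s => cns x p (m + 1 + s)))
          = ∑ w, W P m a w (fun p => F₁ (cns x p)) * W P n w y F₂ := by
        intro a
        rw [← ih a (fun p => F₁ (cns x p))]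
        · congr 1
          funext p
          have : (fun s => cns x p (m + 1 + s)) = fun s => p (m + s) := by
            funext s
            have e2 : m + 1 + s = (m + s) + 1 := by omega
            rw [e2]
            rfl
          rw [this]
        · intro p p' h
          refine hF _ _ fun s hs => ?_
          cases s with
          | zero => rfl
          | succ s => exact h s (by omega)
      simp only [h1, W_succ]
      simp only [Finset.mul_sum, Finset.sum_mul]
      rw [Finset.sum_comm]
      refine Finset.sum_congr rfl fun w _ => ?_
      refine Finset.sum_congr rfl fun a _ => ?_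
      ring

theorem t_spl : SPLStmt := by
  intro V _ P m n x y F₁ F₂ hF
  exact W_split P n y F₂ m x F₁ hF

/-- WEX -/
theorem W_exists {V : Type} [Fintype V] (P : V → V → ℝ) (hP : ∀ u w, 0 ≤ P u w) (n : ℕ) :
    ∀ (x y : V) (F F' : (ℕ → V) → ℝ), W P n x y F < W P n x y F' →
      ∃ p : ℕ → V, p 0 = x ∧ p n = y ∧ (∀ s, s < n → 0 < P (p s) (p (s + 1))) ∧
        F p < F' p := by
  induction n with
  | zero =>
      intro x y F F' h
      simp only [W_zero] at h
      by_cases hxy : x = y
      · rw [if_pos hxy, if_pos hxy] at h
        exact ⟨fun _ => x, rfl, hxy, fun s hs => absurd hs (Nat.not_lt_zero s), h⟩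
      · rw [if_neg hxy, if_neg hxy] at h
        exact absurd h (lt_irrefl _)
  | succ n ih =>
      intro x y F F' h
      simp only [W_succ] at h
      obtain ⟨a, _, ha⟩ := Finset.exists_lt_of_sum_lt h
      have h0 : 0 < P x a := by
        rcases (hP x a).lt_or_eq with h1 | h1
        · exact h1
        · rw [← h1] at ha
          simp at ha
      have h1 := lt_of_mul_lt_mul_left ha (hP x a)
      obtain ⟨p, hp0, hpn, hps, hF⟩ := ih a y _ _ h1
      refine ⟨cns x p, rfl, hpn, ?_, hF⟩
      intro s hs
      cases s with
      | zero =>
          show 0 < P x (p 0)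
          rw [hp0]
          exact h0
      | succ s =>
          exact hps s (by omega)

theorem t_wex : WEXStmt := by
  intro V _ P n x y F F' hP h
  exact W_exists P hP n x y F F' h

end Pool.MRW
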